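import Mathlib
import Pool.Agent.Helper17.SO.Stmts

set_option autoImplicit false

/-! so_mods SCH: Schutzenberger's theorem. -/

namespace Pool.Agent.Helper17.SO

theorem sch_det (v : ℕ) (n lam : ℚ) (hn : n ≠ 0) (hv : 1 ≤ v) :
    (n • (1 : Matrix (Fin v) (Fin v) ℚ) + lam • Matrix.of (fun _ _ => (1 : ℚ))).det =
      n ^ (v - 1) * (n + lam * v) := by
  have h1 : n • (1 : Matrix (Fin v) (Fin v) ℚ) + lam • Matrix.of (fun _ _ => (1 : ℚ)) =
      n • (1 + Matrix.replicateCol Unit (fun _ : Fin v => lam / n) *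
        Matrix.replicateRow Unit (fun _ : Fin v => (1 : ℚ))) := by
    ext i j
    simp [Matrix.mul_apply, Matrix.smul_apply, Matrix.add_apply, mul_add]
    field_simp
  rw [h1, Matrix.det_smul, Matrix.det_one_add_replicateCol_mul_replicateRow]
  simp only [dotProduct, Fintype.card_fin, one_mul, Finset.sum_const, Finset.card_univ,
    nsmul_eq_mul]
  obtain ⟨w, rfl⟩ : ∃ w, v = w + 1 := ⟨v - 1, by omega⟩
  rw [Nat.add_sub_cancel, pow_succ]
  field_simp

theorem st_SCH : ST_SCH := by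
  intro v k n lam A hn hk hkk hev hv hA
  have hcast : (A.map (Int.castRingHom ℚ)) * (A.map (Int.castRingHom ℚ)).transpose =
      (n : ℚ) • (1 : Matrix (Fin v) (Fin v) ℚ) + (lam : ℚ) • Matrix.of (fun _ _ => (1 : ℚ)) := by
    rw [← Matrix.transpose_map, ← Matrix.map_mul, hA]
    ext i j
    simp only [Matrix.map_apply, Matrix.add_apply, Matrix.smul_apply, Matrix.of_apply,
      smul_eq_mul, Matrix.one_apply]
    by_cases hij : i = j
    · simp [hij]
    · simp [hij]
  have hdet : (A.map (Int.castRingHom ℚ)).det * (A.map (Int.castRingHom ℚ)).det =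
      (n : ℚ) ^ (v - 1) * ((n : ℚ) + lam * v) := by
    rw [← sch_det v n lam (by exact_mod_cast (by omega : n ≠ 0)) hv, ← hcast, Matrix.det_mul,
      Matrix.det_transpose]
  have hd2 : (A.map (Int.castRingHom ℚ)).det = ((A.det : ℤ) : ℚ) := by
    have := RingHom.map_det (Int.castRingHom ℚ) A
    simpa using this.symm
  rw [hd2] at hdet
  have hZ : A.det * A.det = (n : ℤ) ^ (v - 1) * ((k : ℤ) * k) := by
    have h3 : ((n : ℚ) + lam * v) = (k : ℚ) * k := by exact_mod_cast hkk.symm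
    rw [h3] at hdet
    exact_mod_cast hdet
  obtain ⟨s, hs⟩ : ∃ s, v - 1 = s + s + 1 := by
    obtain ⟨t, ht⟩ := hev
    exact ⟨t - 1, by omega⟩
  rw [hs] at hZ
  -- rational square
  have hkq : (k : ℚ) ≠ 0 := by exact_mod_cast (by omega : k ≠ 0)
  have hnq : (n : ℚ) ≠ 0 := by exact_mod_cast (by omega : n ≠ 0)
  have hsq : IsSquare (n : ℚ) := by
    refine ⟨(A.det : ℚ) / ((n : ℚ) ^ s * k), ?_⟩
    have hZq : ((A.det : ℤ) : ℚ) * ((A.det : ℤ) : ℚ) = (n : ℚ) ^ (s + s + 1) * ((k : ℚ) * k) := by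
      exact_mod_cast hZ
    rw [div_mul_div_comm, hZq, eq_div_iff (by positivity)]
    ring
  exact Rat.isSquare_natCast_iff.mp hsq

end Pool.Agent.Helper17.SO
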